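import Pool.Agent.H24R2.JP.Polys
import Pool.Agent.H24R2.JP.ParCirc
import Pool.Agent.H24R2.JP.Der

/-!
# Jensen circles for high derivatives
-/

set_option autoImplicit false

namespace Pool.Agent.P8H15.JA

open Complex Filter Topology Polynomial
open scoped ComplexConjugate

/-- approximation by real polynomials whose nonreal roots are zeros of the function -/
def Ap (f : ℂ → ℂ) (R : ℕ → ℝ[X]) : Prop :=
  (∀ (N : ℕ) (x : ℂ), aeval x (R N) = 0 → f x = 0 ∨ x.im = 0) ∧
    TendstoLocallyUniformly (fun (N : ℕ) (x : ℂ) => aeval x (R N)) f atTop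

/-- iterated Jensen circles for polynomials -/
theorem circ_poly (P : ℝ[X]) (k : ℕ) : ∀ w : ℂ, derivative^[k] P ≠ 0 → w.im ≠ 0 →
    aeval w (derivative^[k] P) = 0 →
    ∃ z : ℂ, z.im ≠ 0 ∧ aeval z P = 0 ∧ |w.im| ≤ |z.im| ∧ |w.re - z.re| ≤ k * |z.im| := by
  induction k with
  | zero =>
    intro w _ hw h0
    exact ⟨w, hw, h0, le_rfl, by simp⟩
  | succ k ih =>
    intro w hk hw h0
    rw [Function.iterate_succ_apply'] at hk h0
    obtain ⟨z1, hz1, hz2, hz3⟩ := Pool.Agent.H24R2.JP.jen (derivative^[k] P) hk w hw h0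
    obtain ⟨z, h1, h2, h3, h4⟩ := ih z1 (by
      intro h
      rw [h] at hk
      simp at hk) hz1 hz2
    have h5 := Complex.abs_im_le_norm (w - (z1.re : ℂ))
    have h6 := Complex.abs_re_le_norm (w - (z1.re : ℂ))
    simp only [Complex.sub_im, Complex.ofReal_im, sub_zero, Complex.sub_re, Complex.ofReal_re] at h5 h6
    have h7 : |w.re - z.re| ≤ |w.re - z1.re| + |z1.re - z.re| := by
      have : w.re - z.re = (w.re - z1.re) + (z1.re - z.re) := by ring
      rw [this]
      exact abs_add_le _ _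
    refine ⟨z, h1, h2, (h5.trans hz3).trans h3, ?_⟩
    push_cast
    have h8 := h6.trans (hz3.trans h3)
    linarith

/-- iterated Jensen circles for entire functions -/
theorem circ {f : ℂ → ℂ} (hf : Differentiable ℂ f) {R : ℕ → ℝ[X]} (hR : Ap f R) (k : ℕ) {b : ℂ}
    (hb : iteratedDeriv k f b ≠ 0) {A : ℝ} (hA : ∀ z, f z = 0 → |z.im| ≤ A) {w : ℂ} (hw : w.im ≠ 0)
    (h0 : iteratedDeriv k f w = 0) :
    ∃ z : ℂ, f z = 0 ∧ |w.im| ≤ |z.im| ∧ |w.re - z.re| ≤ k * |z.im| := by
  have hder := Pool.Agent.H24R2.JP.Der.der1 f R hR.2 k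
  have hwpos : 0 < |w.im| := abs_pos.2 hw
  have hfk := Pool.Agent.H24R2.JP.ParCircAux.diff_iter hf k
  have hbN : ∀ᶠ N in atTop, derivative^[k] (R N) ≠ 0 := by
    have h1 := (tendstoLocallyUniformlyOn_univ.2 hder).tendsto_at (Set.mem_univ b)
    filter_upwards [h1.eventually_ne hb] with N hN h2
    apply hN
    rw [h2]
    simp
  have step : ∀ m : ℕ, ∃ v z : ℂ, ‖v - w‖ < 1 / ((m : ℝ) + 1) ∧ f z = 0 ∧ |v.im| ≤ |z.im| ∧
      |v.re - z.re| ≤ k * |z.im| := by
    intro m
    have hkpos : (0 : ℝ) < 1 / ((m : ℝ) + 1) := by positivity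
    have hh := Pool.Agent.H24R2.JP.ParCircAux.hurw
      (F := fun (N : ℕ) (x : ℂ) => aeval x (derivative^[k] (R N)))
      (fun N => Pool.Agent.H24R2.JP.ParCircAux.diff_aeval _) hder hfk h0 hb
      (lt_min hkpos hwpos)
    obtain ⟨N, ⟨v, hv, hv0⟩, hN1⟩ := (hh.and hbN).exists
    have hvim : v.im ≠ 0 := by
      intro h0
      have h4 : |(v - w).im| ≤ ‖v - w‖ := Complex.abs_im_le_norm _
      have h5 : ‖v - w‖ < |w.im| := hv.trans_le (min_le_right _ _)
      rw [Complex.sub_im, h0, zero_sub, abs_neg] at h4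
      linarith
    obtain ⟨z, hz1, hz2, hz3, hz4⟩ := circ_poly (R N) k v hN1 hvim hv0
    exact ⟨v, z, hv.trans_le (min_le_left _ _), (hR.1 N z hz2).resolve_right hz1, hz3, hz4⟩
  choose v z hv hz0 hz1 hz2 using step
  obtain ⟨W, hW⟩ : ∃ W : ℝ, W = ‖w‖ + 1 := ⟨_, rfl⟩
  have hbd : ∀ m, z m ∈ Metric.closedBall (0 : ℂ) (W + k * A + A) := by
    intro m
    rw [mem_closedBall_zero_iff]
    have hv1 : ‖v m‖ ≤ W := by
      have h4 : ‖v m‖ ≤ ‖v m - w‖ + ‖w‖ := by
        have := norm_add_le (v m - w) w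
        simpa using this
      have h5 : 1 / ((m : ℝ) + 1) ≤ 1 := by
        rw [div_le_one (by positivity)]
        have := Nat.cast_nonneg (α := ℝ) m
        linarith
      have := hv m
      rw [hW]
      linarith
    have h8 : |(v m).re| ≤ W := (Complex.abs_re_le_norm _).trans hv1
    have h9 : |(z m).im| ≤ A := hA _ (hz0 m)
    have h10 : |(z m).re| ≤ W + k * A := by
      have h11 : (z m).re = (v m).re - ((v m).re - (z m).re) := by ring
      rw [h11]
      have h12 : (k : ℝ) * |(z m).im| ≤ k * A := by gcongr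
      have h13 := hz2 m
      exact (abs_sub _ _).trans (by linarith)
    have h14 := Complex.norm_le_abs_re_add_abs_im (z m)
    linarith
  obtain ⟨z', -, φ, hφ, hlim⟩ := (isCompact_closedBall (0 : ℂ) (W + k * A + A)).tendsto_subseq hbd
  have hvt : Tendsto v atTop (𝓝 w) := by
    rw [tendsto_iff_norm_sub_tendsto_zero]
    exact squeeze_zero (fun _ => norm_nonneg _) (fun m => (hv m).le)
      tendsto_one_div_add_atTop_nhds_zero_nat
  have hvt' := hvt.comp hφ.tendsto_atTop
  have him : Tendsto (fun m => |(z (φ m)).im|) atTop (𝓝 |z'.im|) :=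
    ((Complex.continuous_im.tendsto _).comp hlim).abs
  refine ⟨z', ?_, ?_, ?_⟩
  · have h1 := (hf.continuous.tendsto z').comp hlim
    have h2 : (f ∘ (z ∘ φ)) = fun _ => (0 : ℂ) := by
      funext m
      exact hz0 (φ m)
    rw [h2] at h1
    exact tendsto_nhds_unique tendsto_const_nhds h1 |>.symm
  · have ha : Tendsto (fun m => |(v (φ m)).im|) atTop (𝓝 |w.im|) :=
      ((Complex.continuous_im.tendsto _).comp hvt').abs
    exact le_of_tendsto_of_tendsto' ha him (fun m => hz1 (φ m))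
  · have ha : Tendsto (fun m => |(v (φ m)).re - (z (φ m)).re|) atTop (𝓝 |w.re - z'.re|) :=
      (((Complex.continuous_re.tendsto _).comp hvt').sub
        ((Complex.continuous_re.tendsto _).comp hlim)).abs
    exact le_of_tendsto_of_tendsto' ha (him.const_mul _) (fun m => hz2 (φ m))

end Pool.Agent.P8H15.JA
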