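import Mathlib

/-!
# Measures of unions of intervals, and summation
-/

set_option autoImplicit false

namespace Pool.Agent.P8H15.JA

open MeasureTheory Set Filter Topology

theorem vol_union (Z : Finset ℂ) (r : ℂ → ℝ) (hr : ∀ z ∈ Z, 0 ≤ r z) :
    volume {t : ℝ | ∃ z ∈ Z, |t - z.re| ≤ r z} ≤ ENNReal.ofReal (∑ z ∈ Z, 2 * r z) := by
  have hsub : {t : ℝ | ∃ z ∈ Z, |t - z.re| ≤ r z} ⊆ ⋃ z ∈ Z, Icc (z.re - r z) (z.re + r z) := by
    rintro t ⟨z, hz, h⟩
    rw [mem_iUnion₂]
    have := abs_le.1 h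
    exact ⟨z, hz, by linarith, by linarith⟩
  refine (measure_mono hsub).trans ((measure_biUnion_finset_le _ _).trans ?_)
  rw [ENNReal.ofReal_sum_of_nonneg (fun z hz => by have := hr z hz; positivity)]
  refine Finset.sum_le_sum fun z hz => ?_
  rw [Real.volume_Icc]
  apply ENNReal.ofReal_le_ofReal
  linarith

/-- the sum of the heights from the counting function -/
theorem sum_im {Z : Finset ℂ} {η p B : ℝ} (hη : 0 < η) (hp0 : 0 < p) (hp1 : p < 1) (hB : 0 ≤ B)
    (hb : ∃ A : ℝ, ∀ z ∈ Z, |z.im| ≤ A)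
    (hN : ∀ m : ℕ, ((Z.filter fun z => (m : ℝ) * η ≤ |z.im|).card : ℝ) ≤ B * p ^ (m + 1)) :
    ∑ z ∈ Z, |z.im| ≤ η * (B * p / (1 - p)) := by
  obtain ⟨A, hA⟩ := hb
  obtain ⟨M, hM⟩ := exists_nat_ge (A / η + 1)
  have key : ∀ z ∈ Z, |z.im| ≤ ∑ m ∈ Finset.range M, if (m : ℝ) * η ≤ |z.im| then η else 0 := by
    intro z hz
    have h0 := abs_nonneg z.im
    obtain ⟨q, hq⟩ : ∃ q : ℕ, q = ⌊|z.im| / η⌋₊ := ⟨_, rfl⟩
    have hq1 : (q : ℝ) ≤ |z.im| / η := by rw [hq]; exact Nat.floor_le (by positivity)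
    have hq2 : |z.im| / η < q + 1 := by rw [hq]; exact Nat.lt_floor_add_one _
    rw [le_div_iff₀ hη] at hq1
    rw [div_lt_iff₀ hη] at hq2
    have hqM : q + 1 ≤ M := by
      have h1 : (q : ℝ) + 1 ≤ M := by
        have h2 : (q : ℝ) ≤ A / η := by
          rw [le_div_iff₀ hη]
          exact hq1.trans (hA z hz)
        linarith
      exact_mod_cast h1
    have hsub : Finset.range (q + 1) ⊆ Finset.range M := Finset.range_subset_range.2 hqM
    calc |z.im| ≤ ((q : ℝ) + 1) * η := hq2.le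
      _ = ∑ m ∈ Finset.range (q + 1), (if (m : ℝ) * η ≤ |z.im| then η else 0) := by
          rw [Finset.sum_congr rfl (g := fun _ => η)]
          · rw [Finset.sum_const, Finset.card_range, nsmul_eq_mul]
            push_cast
            ring
          · intro m hm
            rw [Finset.mem_range] at hm
            have h2 : (m : ℝ) ≤ q := by exact_mod_cast (by omega : m ≤ q)
            rw [if_pos]
            calc (m : ℝ) * η ≤ q * η := by gcongr
              _ ≤ _ := hq1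
      _ ≤ ∑ m ∈ Finset.range M, (if (m : ℝ) * η ≤ |z.im| then η else 0) := by
          refine Finset.sum_le_sum_of_subset_of_nonneg hsub fun m _ _ => ?_
          split_ifs
          · exact hη.le
          · exact le_rfl
  calc ∑ z ∈ Z, |z.im| ≤ ∑ z ∈ Z, ∑ m ∈ Finset.range M, (if (m : ℝ) * η ≤ |z.im| then η else 0) :=
        Finset.sum_le_sum key
    _ = ∑ m ∈ Finset.range M, η * ((Z.filter fun z => (m : ℝ) * η ≤ |z.im|).card : ℝ) := by
        rw [Finset.sum_comm]
        refine Finset.sum_congr rfl fun m _ => ?_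
        rw [← Finset.sum_filter, Finset.sum_const, nsmul_eq_mul]
        ring
    _ ≤ ∑ m ∈ Finset.range M, η * (B * p ^ (m + 1)) := by
        refine Finset.sum_le_sum fun m _ => ?_
        have := hN m
        gcongr
    _ = η * (B * p) * ∑ m ∈ Finset.range M, p ^ m := by
        rw [Finset.mul_sum]
        refine Finset.sum_congr rfl fun m _ => ?_
        ring
    _ ≤ η * (B * p) * (1 - p)⁻¹ := by
        apply mul_le_mul_of_nonneg_left _ (by positivity)
        have h1 := (summable_geometric_of_lt_one hp0.le hp1).sum_le_tsum (Finset.range M)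
          (fun m _ => by positivity)
        rwa [tsum_geometric_of_lt_one hp0.le hp1] at h1
    _ = η * (B * p / (1 - p)) := by
        rw [div_eq_mul_inv]
        ring

/-- summation over the shifts -/
theorem sum_up {E : ℕ → Set ℝ} {c C : ℝ} {n1 : ℕ} (hc : 0 < c) (hC : 0 < C)
    (h : ∀ k : ℕ, n1 ≤ k → ∀ T : ℝ, 0 ≤ T → volume {t : ℝ | 0 ≤ t ∧ t ≤ T ∧ t ∈ E k} ≤
      ENNReal.ofReal (C * T * Real.exp (-(c * k)))) :
    ∃ C' : ℝ, 0 < C' ∧ ∀ (n : ℕ) (T : ℝ), 0 ≤ T →
      volume {t : ℝ | 0 ≤ t ∧ t ≤ T ∧ ∃ k : ℕ, n ≤ k ∧ t ∈ E k} ≤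
        ENNReal.ofReal (C' * T * Real.exp (-(c * n))) := by
  have he : Real.exp (-c) < 1 := by
    rw [Real.exp_lt_one_iff]
    linarith
  have he0 := Real.exp_pos (-c)
  have h5 : 0 < 1 - Real.exp (-c) := by linarith
  refine ⟨max (Real.exp (c * n1)) (C / (1 - Real.exp (-c))), lt_max_of_lt_left (Real.exp_pos _), ?_⟩
  intro n T hT
  rcases lt_or_ge n n1 with hn | hn
  · have hsub : {t : ℝ | 0 ≤ t ∧ t ≤ T ∧ ∃ m : ℕ, n ≤ m ∧ t ∈ E m} ⊆ Icc 0 T := by
      rintro t ⟨h1, h2, -⟩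
      exact ⟨h1, h2⟩
    refine (measure_mono hsub).trans ?_
    rw [Real.volume_Icc, sub_zero]
    apply ENNReal.ofReal_le_ofReal
    have h1 : 1 ≤ Real.exp (c * n1) * Real.exp (-(c * n)) := by
      rw [← Real.exp_add]
      apply Real.one_le_exp
      have : (n : ℝ) ≤ n1 := by exact_mod_cast hn.le
      nlinarith
    calc T = 1 * T := by ring
      _ ≤ (Real.exp (c * n1) * Real.exp (-(c * n))) * T := by gcongr
      _ = Real.exp (c * n1) * T * Real.exp (-(c * n)) := by ring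
      _ ≤ _ := by
        gcongr
        exact le_max_left _ _
  · have hsub : {t : ℝ | 0 ≤ t ∧ t ≤ T ∧ ∃ m : ℕ, n ≤ m ∧ t ∈ E m} ⊆
        ⋃ j : ℕ, {t : ℝ | 0 ≤ t ∧ t ≤ T ∧ t ∈ E (n + j)} := by
      rintro t ⟨h1, h2, m, hm, h3⟩
      rw [mem_iUnion]
      refine ⟨m - n, h1, h2, ?_⟩
      rw [Nat.add_sub_cancel' hm]
      exact h3
    refine (measure_mono hsub).trans ((measure_iUnion_le _).trans ?_)
    have h4 : ∀ j : ℕ, volume {t : ℝ | 0 ≤ t ∧ t ≤ T ∧ t ∈ E (n + j)} ≤
        ENNReal.ofReal (C * T * Real.exp (-(c * n)) * Real.exp (-c) ^ j) := by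
      intro j
      refine (h (n + j) (by omega) T hT).trans (le_of_eq ?_)
      congr 1
      rw [← Real.exp_nat_mul, mul_assoc (C * T), ← Real.exp_add]
      congr 2
      push_cast
      ring
    refine (ENNReal.tsum_le_tsum h4).trans ?_
    have hs : Summable fun j : ℕ => Real.exp (-c) ^ j := summable_geometric_of_lt_one he0.le he
    rw [← ENNReal.ofReal_tsum_of_nonneg (fun j => by positivity) (hs.mul_left _), tsum_mul_left,
      tsum_geometric_of_lt_one he0.le he]
    apply ENNReal.ofReal_le_ofReal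
    calc C * T * Real.exp (-(c * n)) * (1 - Real.exp (-c))⁻¹
        = C / (1 - Real.exp (-c)) * T * Real.exp (-(c * n)) := by
          field_simp
      _ ≤ _ := by
        gcongr
        exact le_max_right _ _

end Pool.Agent.P8H15.JA
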