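import Pool.Agent.P8H15.JA.Crit
import Pool.Agent.P8H15.JA.App
import Pool.Agent.P8H15.JA.Sum
import Pool.Agent.TH803.LU.Sq

/-!
# The points at which some Jensen polynomial is not hyperbolic
-/

set_option autoImplicit false

namespace Pool.Agent.P8H15.JA

open Complex Filter Topology Polynomial MeasureTheory Set
open scoped ComplexConjugate

/-- the data -/
structure Dat (f : ℂ → ℂ) : Prop where
  diff : Differentiable ℂ f
  real : ∀ z, f (conj z) = conj (f z)
  even : ∀ z, f (-z) = f z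
  gr : ∃ K : ℝ, 0 ≤ K ∧ ∀ w, ‖f w‖ ≤ Real.exp (K * (1 + ‖w‖) ^ (3 / 2 : ℝ))
  strip : ∀ z, f z = 0 → |z.im| ≤ 1 / 2
  axis : ∀ z, f z = 0 → z.re ≠ 0
  dens : ∃ c C : ℝ, 0 < c ∧ 0 < C ∧ ∀ δ T : ℝ, 0 ≤ δ → 2 ≤ T →
    {z | f z = 0 ∧ δ ≤ |z.im| ∧ 0 < z.re ∧ z.re ≤ T}.Finite ∧
    ({z | f z = 0 ∧ δ ≤ |z.im| ∧ 0 < z.re ∧ z.re ≤ T}.ncard : ℝ) ≤ C * T ^ (1 - c * δ) * Real.log T
  fin : ∀ (k : ℕ) (T : ℝ), {z | iteratedDeriv k f z = 0 ∧ 0 < z.re ∧ z.re ≤ T}.Finite
  ddens : ∃ c C : ℝ, 0 < c ∧ 0 < C ∧ ∀ (k : ℕ) (T : ℝ), 2 ≤ T →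
    ({z | iteratedDeriv k f z = 0 ∧ z.im ≠ 0 ∧ 0 < z.re ∧ z.re ≤ T}.ncard : ℝ) ≤
      C * Real.exp (-(c * k)) * T * Real.log T
  high : ∃ c : ℝ, 0 < c ∧ ∃ n0 : ℕ, ∀ n : ℕ, n0 ≤ n → ∀ z, iteratedDeriv n f z = 0 →
    |z.re| ≤ Real.exp (c * n) → z.im = 0

variable {f : ℂ → ℂ}

theorem iter_ne (h : Dat f) (k : ℕ) : ∃ b, iteratedDeriv k f b ≠ 0 := by
  by_contra hcon
  push Not at hcon
  have h1 := h.fin k 1
  have h2 : range (fun y : ℝ => (1 + y * I : ℂ)) ⊆ {z | iteratedDeriv k f z = 0 ∧ 0 < z.re ∧ z.re ≤ 1} := by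
    rintro z ⟨y, rfl⟩
    refine ⟨hcon _, ?_, ?_⟩
    · simp
    · simp
  refine (Set.infinite_range_of_injective ?_) (h1.subset h2)
  intro a b hab
  have h3 := congrArg Complex.im hab
  simpa using h3

theorem iter_symm (h : Dat f) (k : ℕ) {z : ℂ} (hz : iteratedDeriv k f z = 0) :
    iteratedDeriv k f (-(conj z)) = 0 := by
  have h1 := iteratedDeriv_comp_neg k f (conj z)
  have h2 : (fun x => f (-x)) = f := funext h.even
  rw [h2, Pool.Agent.TH803.LU.iter_conj h.diff h.real, hz, map_zero] at h1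
  have h3 : ((-1 : ℂ)) ^ k ≠ 0 := pow_ne_zero _ (by norm_num)
  have h4 := h1.symm
  rcases smul_eq_zero.1 h4 with h5 | h5
  · exact absurd h5 h3
  · exact h5

theorem zero_symm (h : Dat f) {z : ℂ} (hz : f z = 0) : f (-(conj z)) = 0 := by
  rw [h.even, h.real, hz, map_zero]

theorem exists_R (h : Dat f) : ∃ R : ℕ → ℝ[X], Ap f R := by
  obtain ⟨K, hK, hb⟩ := h.gr
  exact exists_ap h.diff (by simpa using iter_ne h 0) h.real hK hb

/-- the bad points for the shift `k` and the degrees `d ≤ e^(ck)` -/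
def Bd (f : ℂ → ℂ) (c : ℝ) (k : ℕ) : Set ℝ :=
  {t | ∃ d : ℕ, (d : ℝ) ≤ Real.exp (c * k) ∧ ∃ z, JJ f d k t z = 0 ∧ z.im ≠ 0}

theorem bd_zero (h : Dat f) {c : ℝ} {k : ℕ} {t : ℝ} (ht : t ∈ Bd f c k) :
    iteratedDeriv k f t = 0 ∨ ∃ w, iteratedDeriv k f w = 0 ∧ w.im ≠ 0 ∧
      |t - w.re| ≤ Real.exp (c * k / 2) * |w.im| := by
  obtain ⟨R, hR⟩ := exists_R h
  by_contra hcon
  push Not at hcon
  obtain ⟨h0, hw⟩ := hcon
  obtain ⟨d, hd, z, hz, him⟩ := ht
  refine him (jensen_real hR (by norm_num : (0 : ℝ) ≤ 1 / 2) h.strip d k t h0 (fun w h1 h2 => ?_) z hz)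
  have h3 := hw w h1 h2
  have h4 : Real.exp (c * k) = Real.exp (c * k / 2) ^ 2 := by
    rw [← Real.exp_nat_mul]
    congr 1
    push_cast
    ring
  have h5 : ‖w - t‖ ^ 2 = (t - w.re) ^ 2 + w.im ^ 2 := by
    rw [Complex.sq_norm, Complex.normSq_apply]
    simp
    ring
  have h6 : (Real.exp (c * k / 2) * |w.im|) ^ 2 < (t - w.re) ^ 2 := by
    rw [← sq_abs (t - w.re)]
    exact pow_lt_pow_left₀ h3 (by positivity) (by norm_num)
  rw [mul_pow, sq_abs, ← h4] at h6
  have h7 : 0 < w.im ^ 2 := by positivity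
  have h8 : (d : ℝ) * w.im ^ 2 ≤ Real.exp (c * k) * w.im ^ 2 := by gcongr
  rw [h5]
  linarith

theorem null_real (h : Dat f) (k : ℕ) (T : ℝ) :
    volume {t : ℝ | 0 ≤ t ∧ t ≤ T ∧ iteratedDeriv k f t = 0} = 0 := by
  have h1 : {t : ℝ | 0 ≤ t ∧ t ≤ T ∧ iteratedDeriv k f t = 0} ⊆
      {0} ∪ Complex.re '' {z | iteratedDeriv k f z = 0 ∧ 0 < z.re ∧ z.re ≤ T} := by
    rintro t ⟨h1, h2, h3⟩
    rcases h1.eq_or_lt with h4 | h4
    · left
      exact h4.symm
    · right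
      exact ⟨(t : ℂ), ⟨h3, by simpa using h4, by simpa using h2⟩, by simp⟩
  exact ((Set.finite_singleton (0 : ℝ)).union ((h.fin k T).image _)).subset h1 |>.measure_zero _

/-- **One shift.** -/
theorem one (h : Dat f) : ∃ (c C : ℝ) (n1 : ℕ), 0 < c ∧ 0 < C ∧ ∀ k : ℕ, n1 ≤ k → ∀ T : ℝ, 0 ≤ T →
    volume {t : ℝ | 0 ≤ t ∧ t ≤ T ∧ t ∈ Bd f c k} ≤ ENNReal.ofReal (C * T * Real.exp (-(c * k))) := by
  obtain ⟨c1, C1, hc1, hC1, hdens⟩ := h.dens
  obtain ⟨c2, C2, hc2, hC2, hddens⟩ := h.ddens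
  obtain ⟨c4, hc4, n0, hhigh⟩ := h.high
  obtain ⟨R, hR⟩ := exists_R h
  obtain ⟨c, hcd⟩ : ∃ c : ℝ, c = min (c1 / 6) (min (c2 / 3) c4) := ⟨_, rfl⟩
  have hc : 0 < c := by rw [hcd]; exact lt_min (by positivity) (lt_min (by positivity) hc4)
  have hcc1 : c ≤ c1 / 6 := by rw [hcd]; exact min_le_left _ _
  have hcc2 : c ≤ c2 / 3 := by rw [hcd]; exact (min_le_right _ _).trans (min_le_left _ _)
  have hcc4 : c ≤ c4 := by rw [hcd]; exact (min_le_right _ _).trans (min_le_right _ _)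
  have hq : 0 < 1 - Real.exp (-(c1 / 2)) := by
    have : Real.exp (-(c1 / 2)) < 1 := by
      rw [Real.exp_lt_one_iff]
      linarith
    linarith
  obtain ⟨C, hCd⟩ : ∃ C : ℝ, C = 4 * C2 / c + 4 * ((1 + 1 / c) * (1 / c)) * C1 / (1 - Real.exp (-(c1 / 2))) := ⟨_, rfl⟩
  have hC : 0 < C := by rw [hCd]; positivity
  refine ⟨c, C, max n0 (max 4 ⌈2 / c4 ^ 2⌉₊), hc, hC, ?_⟩
  intro k hk T hT
  have hk0 : n0 ≤ k := (le_max_left _ _).trans hk
  have hk4 : 4 ≤ k := ((le_max_left _ _).trans (le_max_right _ _)).trans hk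
  have hkc : 2 / c4 ^ 2 ≤ (k : ℝ) := (Nat.le_ceil _).trans
    (by exact_mod_cast ((le_max_right _ _).trans (le_max_right _ _)).trans hk)
  have hk4r : (4 : ℝ) ≤ k := by exact_mod_cast hk4
  obtain ⟨E, hE⟩ : ∃ E : ℝ, E = Real.exp (c * k / 2) := ⟨_, rfl⟩
  have hE0 : 0 < E := by rw [hE]; exact Real.exp_pos _
  have hE1 : 1 ≤ E := by rw [hE]; exact Real.one_le_exp (by positivity)
  obtain ⟨b, hb⟩ := iter_ne h k
  have hwim : ∀ w, iteratedDeriv k f w = 0 → w.im ≠ 0 → ∃ z, f z = 0 ∧ |w.im| ≤ |z.im| ∧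
      |w.re - z.re| ≤ k * |z.im| := fun w h1 h2 => circ h.diff hR k hb h.strip h2 h1
  have hwim2 : ∀ w, iteratedDeriv k f w = 0 → w.im ≠ 0 → |w.im| ≤ 1 / 2 := fun w h1 h2 => by
    obtain ⟨z, h3, h4, -⟩ := hwim w h1 h2
    exact h4.trans (h.strip z h3)
  rcases lt_or_ge T ((E + k) / 2) with hB | hA
  · -- no bad points
    have hsub : {t : ℝ | 0 ≤ t ∧ t ≤ T ∧ t ∈ Bd f c k} ⊆
        {t : ℝ | 0 ≤ t ∧ t ≤ T ∧ iteratedDeriv k f t = 0} := by
      rintro t ⟨h1, h2, h3⟩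
      refine ⟨h1, h2, ?_⟩
      rcases bd_zero h h3 with h4 | ⟨w, h4, h5, h6⟩
      · exact h4
      exfalso
      refine h5 (hhigh k hk0 w h4 ?_)
      rw [← hE] at h6
      have h7 := hwim2 w h4 h5
      have h8 : E * |w.im| ≤ E * (1 / 2) := by gcongr
      have h9 : |w.re| ≤ t + E * (1 / 2) := by
        have h10 : w.re = t - (t - w.re) := by ring
        rw [h10]
        refine (abs_sub _ _).trans ?_
        rw [abs_of_nonneg h1]
        linarith
      obtain ⟨x, hx⟩ : ∃ x : ℝ, x = Real.exp (c4 * k / 2) := ⟨_, rfl⟩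
      have hx1 : c4 * k / 2 + 1 ≤ x := by rw [hx]; exact Real.add_one_le_exp _
      have hEx : E ≤ x := by
        rw [hE, hx]
        apply Real.exp_le_exp.2
        have : c * k ≤ c4 * k := by gcongr
        linarith
      have hx2 : Real.exp (c4 * k) = x ^ 2 := by
        rw [hx, ← Real.exp_nat_mul]
        congr 1
        push_cast
        ring
      have hxc : 1 ≤ x * c4 := by
        rw [div_le_iff₀ (by positivity)] at hkc
        have : c4 * k / 2 * c4 ≤ x * c4 := by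
          gcongr
          linarith
        nlinarith
      have h11 : (k : ℝ) / 2 ≤ x * (x - 1) := by
        have h12 : c4 * k / 2 ≤ x - 1 := by linarith
        have hx0 : 0 ≤ x := by linarith
        calc (k : ℝ) / 2 = 1 * (k / 2) := by ring
          _ ≤ (x * c4) * (k / 2) := by gcongr
          _ = x * (c4 * k / 2) := by ring
          _ ≤ x * (x - 1) := by gcongr
      rw [hx2]
      nlinarith
    refine (measure_mono hsub).trans ?_
    rw [null_real h k T]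
    exact bot_le
  · -- few bad points
    have hT2 : 2 ≤ T := by linarith
    obtain ⟨T', hT'⟩ : ∃ T' : ℝ, T' = 2 * T := ⟨_, rfl⟩
    have hT'2 : 2 ≤ T' := by linarith
    have hT'0 : 0 < T' := by linarith
    obtain ⟨L, hL⟩ : ∃ L : ℝ, L = Real.log T' := ⟨_, rfl⟩
    have hL0 : 0 < L := by rw [hL]; exact Real.log_pos (by linarith)
    obtain ⟨η, hη⟩ : ∃ η : ℝ, η = k / L := ⟨_, rfl⟩
    have hk0' : (0 : ℝ) < k := by linarith
    have hη0 : 0 < η := by rw [hη]; positivity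
    have hηL : η * L = k := by rw [hη]; field_simp
    obtain ⟨p, hp⟩ : ∃ p : ℝ, p = Real.exp (-(c1 * k / 2)) := ⟨_, rfl⟩
    have hp0 : 0 < p := by rw [hp]; exact Real.exp_pos _
    have hpq : p ≤ Real.exp (-(c1 / 2)) := by
      rw [hp]
      apply Real.exp_le_exp.2
      nlinarith
    have hp1 : p < 1 := by linarith
    obtain ⟨Z, hZ⟩ : ∃ Z : Finset ℂ, Z = (hdens η T' hη0.le hT'2).1.toFinset := ⟨_, rfl⟩
    have hZm : ∀ z, z ∈ Z ↔ f z = 0 ∧ η ≤ |z.im| ∧ 0 < z.re ∧ z.re ≤ T' := fun z => by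
      rw [hZ, Set.Finite.mem_toFinset]
      rfl
    have hWfin : {z | iteratedDeriv k f z = 0 ∧ z.im ≠ 0 ∧ 0 < z.re ∧ z.re ≤ T'}.Finite :=
      (h.fin k T').subset fun z hz => ⟨hz.1, hz.2.2⟩
    obtain ⟨W, hW⟩ : ∃ W : Finset ℂ, W = hWfin.toFinset := ⟨_, rfl⟩
    have hWm : ∀ z, z ∈ W ↔ iteratedDeriv k f z = 0 ∧ z.im ≠ 0 ∧ 0 < z.re ∧ z.re ≤ T' := fun z => by
      rw [hW, Set.Finite.mem_toFinset]
      rfl
    have hWc : (W.card : ℝ) ≤ C2 * Real.exp (-(c2 * k)) * T' * L := by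
      have h1 := hddens k T' hT'2
      rw [Set.ncard_eq_toFinset_card _ hWfin, ← hW, ← hL] at h1
      exact h1
    have hsum : ∑ z ∈ Z, |z.im| ≤ η * (C1 * T' * L * p / (1 - p)) := by
      refine sum_im hη0 hp0 hp1 (by positivity) ⟨1 / 2, fun z hz => h.strip z ((hZm z).1 hz).1⟩ ?_
      intro m
      obtain ⟨δ, hδ⟩ : ∃ δ : ℝ, δ = max (m : ℝ) 1 * η := ⟨_, rfl⟩
      have hδ0 : 0 ≤ δ := by rw [hδ]; positivity
      obtain ⟨hfin, hcard⟩ := hdens δ T' hδ0 hT'2
      have h1 : (Z.filter fun z => (m : ℝ) * η ≤ |z.im|) ⊆ hfin.toFinset := by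
        intro z hz
        rw [Finset.mem_filter, hZm] at hz
        rw [Set.Finite.mem_toFinset]
        refine ⟨hz.1.1, ?_, hz.1.2.2⟩
        rw [hδ, max_mul_of_nonneg _ _ hη0.le, one_mul]
        exact max_le hz.2 hz.1.2.1
      have h2 : ((Z.filter fun z => (m : ℝ) * η ≤ |z.im|).card : ℝ) ≤ C1 * T' ^ (1 - c1 * δ) * Real.log T' := by
        refine le_trans ?_ hcard
        rw [Set.ncard_eq_toFinset_card _ hfin]
        exact_mod_cast Finset.card_le_card h1
      refine h2.trans ?_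
      rw [← hL]
      have h3 : T' ^ (1 - c1 * δ) ≤ T' * p ^ (m + 1) := by
        rw [Real.rpow_sub hT'0, Real.rpow_one, Real.rpow_def_of_pos hT'0, ← hL, div_eq_mul_inv, ← Real.exp_neg,
          hp, ← Real.exp_nat_mul]
        apply mul_le_mul_of_nonneg_left _ hT'0.le
        apply Real.exp_le_exp.2
        have h4 : L * (c1 * δ) = c1 * max (m : ℝ) 1 * k := by
          rw [hδ, ← hηL]
          ring
        rw [h4]
        have h5 : ((m : ℝ) + 1) / 2 ≤ max (m : ℝ) 1 := by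
          rcases le_total (m : ℝ) 1 with h6 | h6
          · rw [max_eq_right h6]
            linarith
          · rw [max_eq_left h6]
            linarith
        have h6 : c1 * (((m : ℝ) + 1) / 2) * k ≤ c1 * max (m : ℝ) 1 * k := by gcongr
        push_cast
        nlinarith
      calc C1 * T' ^ (1 - c1 * δ) * L ≤ C1 * (T' * p ^ (m + 1)) * L := by gcongr
        _ = C1 * T' * L * p ^ (m + 1) := by ring
    have hsub : {t : ℝ | 0 ≤ t ∧ t ≤ T ∧ t ∈ Bd f c k} ⊆
        {t : ℝ | 0 ≤ t ∧ t ≤ T ∧ iteratedDeriv k f t = 0} ∪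
        ({t : ℝ | ∃ z ∈ W, |t - z.re| ≤ E * η} ∪ {t : ℝ | ∃ z ∈ Z, |t - z.re| ≤ (E + k) * |z.im|}) := by
      rintro t ⟨h1, h2, h3⟩
      rcases bd_zero h h3 with h4 | ⟨w0, h4, h5, h6⟩
      · left
        exact ⟨h1, h2, h4⟩
      right
      rw [← hE] at h6
      -- reflection to the right
      obtain ⟨w, hw1, hw2, hw3, hw4⟩ : ∃ w, iteratedDeriv k f w = 0 ∧ w.im ≠ 0 ∧ |t - w.re| ≤ E * |w.im| ∧
          0 < w.re := by
        rcases lt_trichotomy w0.re 0 with h7 | h7 | h7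
        · refine ⟨-(conj w0), iter_symm h k h4, by simpa using h5, ?_, by simpa using h7⟩
          have h8 : (-(conj w0)).re = -w0.re := by simp
          have h9 : (-(conj w0)).im = w0.im := by simp
          rw [h8, h9]
          refine le_trans ?_ h6
          rw [abs_of_nonneg (by linarith : 0 ≤ t - w0.re)]
          exact abs_le.2 ⟨by linarith, by linarith⟩
        · exfalso
          refine h5 (hhigh k hk0 w0 h4 ?_)
          rw [h7, abs_zero]
          exact (Real.exp_pos _).le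
        · exact ⟨w0, h4, h5, h6, h7⟩
      have hw5 := hwim2 w hw1 hw2
      have h7 : E * |w.im| ≤ E * (1 / 2) := by gcongr
      rcases lt_or_ge |w.im| η with h8 | h8
      · left
        refine ⟨w, (hWm w).2 ⟨hw1, hw2, hw4, ?_⟩, hw3.trans (by gcongr)⟩
        have h9 := (abs_le.1 hw3).1
        rw [hT']
        linarith
      · right
        obtain ⟨z0, hz1, hz2, hz3⟩ := hwim w hw1 hw2
        have h9 : |t - z0.re| ≤ (E + k) * |z0.im| := by
          have h10 : t - z0.re = (t - w.re) + (w.re - z0.re) := by ring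
          rw [h10]
          refine (abs_add_le _ _).trans ?_
          have h11 : E * |w.im| ≤ E * |z0.im| := by gcongr
          linarith
        obtain ⟨z, hz4, hz5, hz6, hz7⟩ : ∃ z, f z = 0 ∧ |z.im| = |z0.im| ∧ |t - z.re| ≤ (E + k) * |z.im| ∧
            0 < z.re := by
          rcases lt_trichotomy z0.re 0 with h7 | h7 | h7
          · refine ⟨-(conj z0), zero_symm h hz1, by simp, ?_, by simpa using h7⟩
            have h8 : (-(conj z0)).re = -z0.re := by simp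
            have h10 : (-(conj z0)).im = z0.im := by simp
            rw [h8, h10]
            refine le_trans ?_ h9
            rw [abs_of_nonneg (by linarith : 0 ≤ t - z0.re)]
            exact abs_le.2 ⟨by linarith, by linarith⟩
          · exact absurd h7 (h.axis z0 hz1)
          · exact ⟨z0, hz1, rfl, h9, h7⟩
        refine ⟨z, (hZm z).2 ⟨hz4, ?_, hz7, ?_⟩, hz6⟩
        · rw [hz5]
          exact h8.trans hz2
        · have h10 := (abs_le.1 hz6).1
          have h11 : (E + k) * |z.im| ≤ (E + k) * (1 / 2) := by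
            have := h.strip z hz4
            gcongr
          rw [hT']
          linarith
    have hk1 : (k : ℝ) ≤ 1 / c * Real.exp (c * k) := by
      have := Real.add_one_le_exp (c * (k : ℝ))
      rw [one_div, inv_mul_eq_div, le_div_iff₀ hc]
      nlinarith
    have hE2 : E ≤ Real.exp (c * k) := by
      rw [hE]
      apply Real.exp_le_exp.2
      nlinarith
    have he := Real.exp_pos (c * (k : ℝ))
    have v1 : volume {t : ℝ | ∃ z ∈ W, |t - z.re| ≤ E * η} ≤
        ENNReal.ofReal (4 * C2 / c * T * Real.exp (-(c * k))) := by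
      refine (vol_union W (fun _ => E * η) (fun _ _ => by positivity)).trans ?_
      apply ENNReal.ofReal_le_ofReal
      rw [Finset.sum_const, nsmul_eq_mul]
      calc (W.card : ℝ) * (2 * (E * η)) ≤ (C2 * Real.exp (-(c2 * k)) * T' * L) * (2 * (E * η)) := by gcongr
        _ = 2 * C2 * Real.exp (-(c2 * k)) * T' * E * (η * L) := by ring
        _ = 2 * C2 * Real.exp (-(c2 * k)) * T' * E * k := by rw [hηL]
        _ ≤ 2 * C2 * Real.exp (-(c2 * k)) * T' * Real.exp (c * k) * (1 / c * Real.exp (c * k)) := by gcongr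
        _ = 4 * C2 / c * T * (Real.exp (-(c2 * k)) * Real.exp (c * k) * Real.exp (c * k)) := by
          rw [hT']
          ring
        _ ≤ 4 * C2 / c * T * Real.exp (-(c * k)) := by
          rw [← Real.exp_add, ← Real.exp_add]
          gcongr
          nlinarith
    have v2 : volume {t : ℝ | ∃ z ∈ Z, |t - z.re| ≤ (E + k) * |z.im|} ≤
        ENNReal.ofReal (4 * ((1 + 1 / c) * (1 / c)) * C1 / (1 - Real.exp (-(c1 / 2))) * T * Real.exp (-(c * k))) := by
      refine (vol_union Z (fun z => (E + k) * |z.im|) (fun _ _ => by positivity)).trans ?_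
      apply ENNReal.ofReal_le_ofReal
      have h1 : ∑ z ∈ Z, 2 * ((E + k) * |z.im|) = 2 * (E + k) * ∑ z ∈ Z, |z.im| := by
        rw [Finset.mul_sum]
        exact Finset.sum_congr rfl fun z _ => by ring
      rw [h1]
      have h2 : p / (1 - p) ≤ p / (1 - Real.exp (-(c1 / 2))) := by
        gcongr
      calc 2 * (E + k) * ∑ z ∈ Z, |z.im| ≤ 2 * (E + k) * (η * (C1 * T' * L * p / (1 - p))) := by gcongr
        _ = 2 * (E + k) * (η * L) * C1 * T' * (p / (1 - p)) := by ring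
        _ = 2 * (E + k) * k * C1 * T' * (p / (1 - p)) := by rw [hηL]
        _ ≤ 2 * (Real.exp (c * k) + 1 / c * Real.exp (c * k)) * (1 / c * Real.exp (c * k)) * C1 * T' *
            (p / (1 - Real.exp (-(c1 / 2)))) := by
          have h3 : 0 ≤ p / (1 - p) := div_nonneg hp0.le (by linarith)
          gcongr
        _ = 4 * ((1 + 1 / c) * (1 / c)) * C1 / (1 - Real.exp (-(c1 / 2))) * T *
            (p * Real.exp (c * k) * Real.exp (c * k)) := by
          rw [hT']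
          field_simp
          ring
        _ ≤ _ := by
          rw [hp, ← Real.exp_add, ← Real.exp_add]
          gcongr
          nlinarith
    refine (measure_mono hsub).trans ((measure_union_le _ _).trans ?_)
    rw [null_real h k T, zero_add]
    refine (measure_union_le _ _).trans ((add_le_add v1 v2).trans ?_)
    rw [← ENNReal.ofReal_add (by positivity) (by positivity)]
    apply ENNReal.ofReal_le_ofReal
    apply le_of_eq
    rw [hCd]
    ring

/-- **All shifts.** -/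
theorem all (h : Dat f) : ∃ c C : ℝ, 0 < c ∧ 0 < C ∧ ∀ (n : ℕ) (T : ℝ), 0 ≤ T →
    volume {t : ℝ | 0 ≤ t ∧ t ≤ T ∧ ∃ k : ℕ, n ≤ k ∧ t ∈ Bd f c k} ≤
      ENNReal.ofReal (C * T * Real.exp (-(c * n))) := by
  obtain ⟨c, C, n1, hc, hC, hmain⟩ := one h
  obtain ⟨C', hC', h'⟩ := sum_up hc hC hmain
  exact ⟨c, C', hc, hC', h'⟩

end Pool.Agent.P8H15.JA
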