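import Pool.Agent.P8H15.JA.Hyp
import Pool.Agent.H24R2.JP.RH2

/-!
# The criterion: real zeros and Jensen polynomials at real points
-/

set_option autoImplicit false

namespace Pool.Agent.P8H15.JA

open Complex Filter Topology Polynomial
open scoped ComplexConjugate

theorem poly_mono {P : ℂ[X]} (h : ∀ z, P.eval z = 0 → z.im = 0) {y1 y2 : ℝ} (h1 : 0 ≤ y1) (h2 : y1 ≤ y2) :
    ‖P.eval (I * y1)‖ ≤ ‖P.eval (I * y2)‖ := by
  by_cases hP : P = 0
  · simp [hP]
  have hsplit := (IsAlgClosed.splits P).eq_prod_roots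
  have hval : ∀ z : ℂ, P.eval z = P.leadingCoeff * (P.roots.map (fun r => z - r)).prod := by
    intro z
    conv_lhs => rw [hsplit]
    rw [eval_mul, eval_C, eval_multiset_prod, Multiset.map_map]
    congr 2
    apply Multiset.map_congr rfl
    intro a _
    simp
  rw [hval, hval, norm_mul, norm_mul]
  refine mul_le_mul_of_nonneg_left ?_ (norm_nonneg _)
  have hroot : ∀ a ∈ P.roots, a.im = 0 := by
    intro a ha
    exact h a (mem_roots'.1 ha).2
  have key : ∀ s : Multiset ℂ, (∀ a ∈ s, a.im = 0) →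
      ‖(s.map (fun r => I * y1 - r)).prod‖ ≤ ‖(s.map (fun r => I * y2 - r)).prod‖ := by
    intro s
    induction s using Multiset.induction_on with
    | empty => intro _; simp
    | cons a s ih =>
      intro h
      rw [Multiset.map_cons, Multiset.prod_cons, Multiset.map_cons, Multiset.prod_cons, norm_mul, norm_mul]
      refine mul_le_mul ?_ (ih fun b hb => h b (Multiset.mem_cons_of_mem hb)) (norm_nonneg _) (norm_nonneg _)
      have ha : a.im = 0 := h a (Multiset.mem_cons_self a s)
      have e : ∀ y : ℝ, ‖I * y - a‖ ^ 2 = y ^ 2 + a.re ^ 2 := by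
        intro y
        rw [Complex.sq_norm, Complex.normSq_apply]
        simp [ha]
        ring
      refine abs_le_of_sq_le_sq' ?_ (norm_nonneg _) |>.2
      rw [e, e]
      have : y1 ^ 2 ≤ y2 ^ 2 := pow_le_pow_left₀ h1 h2 2
      linarith
  exact key _ hroot

theorem jj_tendsto {f : ℂ → ℂ} (hf : Differentiable ℂ f) (t : ℝ) (x : ℂ) :
    Tendsto (fun d : ℕ => JJ f d 0 t (x / (d : ℂ))) atTop (𝓝 (f (t + x))) := by
  have hs : HasSum (fun j : ℕ => iteratedDeriv j f t / (j.factorial : ℂ) * x ^ j) (f (t + x)) := by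
    have h2 := Complex.hasSum_taylorSeries_of_entire hf (t : ℂ) (t + x)
    have h3 : (fun j : ℕ => iteratedDeriv j f t / (j.factorial : ℂ) * x ^ j) =
        (fun n : ℕ => (n.factorial : ℂ)⁻¹ • (t + x - t) ^ n • iteratedDeriv n f t) := by
      funext n
      rw [add_sub_cancel_left, smul_eq_mul, smul_eq_mul]
      ring
    rw [h3]
    exact h2
  have hsn : Summable (fun j : ℕ => ‖iteratedDeriv j f t / (j.factorial : ℂ) * x ^ j‖) := hs.summable.norm
  have h2 : Tendsto (fun d : ℕ => ∑' j : ℕ, (((((d.choose j : ℕ) : ℝ) / (d : ℝ) ^ j : ℝ)) : ℂ) *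
      (iteratedDeriv j f t * x ^ j)) atTop (𝓝 (∑' j : ℕ, iteratedDeriv j f t / (j.factorial : ℂ) * x ^ j)) := by
    apply tendsto_tsum_of_dominated_convergence hsn
    · intro j
      have h3 := (Pool.Agent.H24R2.JP.rh2_choose j)
      have h4 : Tendsto (fun d : ℕ => ((((d.choose j : ℕ) : ℝ) / (d : ℝ) ^ j : ℝ) : ℂ)) atTop
          (𝓝 ((1 / (j.factorial : ℝ) : ℝ) : ℂ)) := (Complex.continuous_ofReal.tendsto _).comp h3
      have h5 := h4.mul_const (iteratedDeriv j f t * x ^ j)
      have h6 : ((1 / (j.factorial : ℝ) : ℝ) : ℂ) * (iteratedDeriv j f t * x ^ j) =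
          iteratedDeriv j f t / (j.factorial : ℂ) * x ^ j := by
        push_cast; ring
      rw [← h6]; exact h5
    · filter_upwards with d
      intro j
      have h7 : (0 : ℝ) ≤ ((d.choose j : ℕ) : ℝ) / (d : ℝ) ^ j := by positivity
      rw [norm_mul, Complex.norm_real, Real.norm_of_nonneg h7]
      have h8 : ‖iteratedDeriv j f t / (j.factorial : ℂ) * x ^ j‖ =
          1 / (j.factorial : ℝ) * ‖iteratedDeriv j f t * x ^ j‖ := by
        rw [div_mul_eq_mul_div, norm_div, Complex.norm_natCast]; ring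
      rw [h8]
      exact mul_le_mul_of_nonneg_right (Pool.Agent.H24R2.JP.rh2_choose_le d j) (norm_nonneg _)
  rw [hs.tsum_eq] at h2
  refine h2.congr' ?_
  filter_upwards [eventually_ge_atTop 1] with d hd
  have hd' : (d : ℂ) ≠ 0 := by exact_mod_cast (by omega : d ≠ 0)
  unfold JJ
  rw [tsum_eq_sum (s := Finset.range (d + 1))]
  · apply Finset.sum_congr rfl
    intro j _
    push_cast
    rw [div_pow, zero_add]
    field_simp
  · intro j hj
    have hj' : d < j := by simpa using hj
    rw [Nat.choose_eq_zero_of_lt hj']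
    simp

/-- points of the real line near a given one where the function does not vanish -/
theorem real_ev {f : ℂ → ℂ} (hf : Differentiable ℂ f) (hne : ∃ z, f z ≠ 0) (t0 : ℝ) :
    ∀ᶠ t : ℝ in 𝓝[≠] t0, f t ≠ 0 := by
  have han : AnalyticOnNhd ℂ f Set.univ := fun z _ => hf.analyticAt z
  rcases (han (t0 : ℂ) (Set.mem_univ _)).eventually_eq_zero_or_eventually_ne_zero with h | h
  · exfalso
    obtain ⟨z, hz'⟩ := hne
    exact hz' (han.eqOn_zero_of_preconnected_of_eventuallyEq_zero isPreconnected_univ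
      (Set.mem_univ _) h (Set.mem_univ z))
  · have h1 : Tendsto (fun t : ℝ => (t : ℂ)) (𝓝[≠] t0) (𝓝[≠] (t0 : ℂ)) := by
      rw [tendsto_nhdsWithin_iff]
      constructor
      · have h2 : Tendsto (fun t : ℝ => (t : ℂ)) (𝓝 t0) (𝓝 ((t0 : ℂ))) :=
          (Continuous.tendsto (by fun_prop) t0)
        exact h2.mono_left nhdsWithin_le_nhds
      · filter_upwards [self_mem_nhdsWithin] with t ht h3
        have h4 : (t : ℂ) = (t0 : ℂ) := h3
        exact ht (by exact_mod_cast h4)
    exact h1.eventually h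

/-- If all Jensen polynomials of shift `0` at real points are hyperbolic, then all zeros are real. -/
theorem crit_rev {f : ℂ → ℂ} (hf : Differentiable ℂ f) (hne : ∃ z, f z ≠ 0)
    (hsym : ∀ x, f (conj x) = conj (f x))
    (hJ : ∀ (d : ℕ) (t : ℝ), f t ≠ 0 → ∀ z, JJ f d 0 t z = 0 → z.im = 0) (w : ℂ) (hw : f w = 0) : w.im = 0 := by
  have hmono : ∀ (t y1 y2 : ℝ), 0 ≤ y1 → y1 ≤ y2 → ‖f (t + I * y1)‖ ≤ ‖f (t + I * y2)‖ := by
    intro t0 y1 y2 h1 h2
    have hgood : ∀ t : ℝ, f t ≠ 0 → ‖f (t + I * y1)‖ ≤ ‖f (t + I * y2)‖ := by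
      intro t ht
      refine le_of_tendsto_of_tendsto (jj_tendsto hf t (I * y1)).norm (jj_tendsto hf t (I * y2)).norm ?_
      filter_upwards [eventually_ge_atTop 1] with d hd
      have hdr : (0 : ℝ) < d := by exact_mod_cast hd
      have hev : ∀ z : ℂ, (∑ j ∈ Finset.range (d + 1),
          Polynomial.C ((d.choose j : ℂ) * iteratedDeriv (0 + j) f t) * Polynomial.X ^ j).eval z =
          JJ f d 0 t z := by
        intro z
        unfold JJ
        simp [eval_finsetSum]
      have h3 := poly_mono (P := ∑ j ∈ Finset.range (d + 1),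
          Polynomial.C ((d.choose j : ℂ) * iteratedDeriv (0 + j) f t) * Polynomial.X ^ j)
          (fun z hz => hJ d t ht z (by rwa [hev] at hz)) (y1 := y1 / d) (y2 := y2 / d) (by positivity)
          (by gcongr)
      rw [hev, hev] at h3
      have e : ∀ y : ℝ, (I * y : ℂ) / (d : ℂ) = I * ((y / d : ℝ) : ℂ) := by
        intro y
        push_cast
        ring
      show ‖JJ f d 0 t (I * y1 / (d : ℂ))‖ ≤ ‖JJ f d 0 t (I * y2 / (d : ℂ))‖
      rw [e, e]
      exact h3
    have hc : ∀ y : ℝ, Tendsto (fun t : ℝ => ‖f (t + I * y)‖) (𝓝[≠] t0) (𝓝 ‖f (t0 + I * y)‖) := by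
      intro y
      have h3 : Continuous fun t : ℝ => ‖f (t + I * y)‖ :=
        (hf.continuous.comp (by fun_prop)).norm
      exact (h3.tendsto t0).mono_left nhdsWithin_le_nhds
    refine le_of_tendsto_of_tendsto (hc y1) (hc y2) ?_
    filter_upwards [real_ev hf hne t0] with t ht
    exact hgood t ht
  have main : ∀ v : ℂ, 0 < v.im → f v ≠ 0 := by
    intro v hv h0
    have h1 : ∀ y : ℝ, 0 ≤ y → y ≤ v.im → f (v.re + I * y) = 0 := by
      intro y hy1 hy2
      have h2 := hmono v.re y v.im hy1 hy2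
      have e : (v.re + I * v.im : ℂ) = v := by
        apply Complex.ext <;> simp
      rw [e, h0, norm_zero] at h2
      exact norm_le_zero_iff.1 h2
    have han : AnalyticOnNhd ℂ f Set.univ := fun z _ => hf.analyticAt z
    have h2 : Tendsto (fun y : ℝ => (v.re + I * y : ℂ)) (𝓝[>] 0) (𝓝[≠] (v.re : ℂ)) := by
      rw [tendsto_nhdsWithin_iff]
      constructor
      · have h3 : Tendsto (fun y : ℝ => (v.re + I * y : ℂ)) (𝓝 0) (𝓝 (v.re + I * ((0 : ℝ) : ℂ))) :=
          Continuous.tendsto (by fun_prop) 0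
        rw [Complex.ofReal_zero, mul_zero, add_zero] at h3
        exact h3.mono_left nhdsWithin_le_nhds
      · filter_upwards [self_mem_nhdsWithin] with y hy h4
        have h5 : (v.re + I * y : ℂ) = (v.re : ℂ) := h4
        have h6 := congrArg Complex.im h5
        simp at h6
        have hy' : 0 < y := hy
        linarith
    have h3 : ∀ᶠ y : ℝ in 𝓝[>] 0, f (v.re + I * y) = 0 := by
      filter_upwards [Ioo_mem_nhdsGT hv] with y hy
      exact h1 y hy.1.le hy.2.le
    have h4 : ∃ᶠ z in 𝓝[≠] (v.re : ℂ), f z = 0 := h2.frequently h3.frequently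
    obtain ⟨z, hz⟩ := hne
    exact hz (han.eqOn_zero_of_preconnected_of_frequently_eq_zero isPreconnected_univ
      (Set.mem_univ _) h4 (Set.mem_univ z))
  by_contra him
  rcases lt_or_gt_of_ne him with h | h
  · refine main (conj w) (by simpa using h) ?_
    rw [hsym, hw, map_zero]
  · exact main w h hw

/-- If all zeros are real, then all Jensen polynomials at real points are hyperbolic. -/
theorem crit_fwd {f : ℂ → ℂ} (hf : Differentiable ℂ f) {R : ℕ → ℝ[X]} (hR : Ap f R)
    (hz : ∀ z, f z = 0 → z.im = 0) (d k : ℕ) (t : ℝ) (h0 : iteratedDeriv k f t ≠ 0) (z : ℂ)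
    (hJ : JJ f d k t z = 0) : z.im = 0 := by
  refine jensen_real hR le_rfl (fun z h => by rw [hz z h, abs_zero]) d k t h0 (fun w hw him => ?_) z hJ
  exfalso
  obtain ⟨v, hv1, hv2, -⟩ := circ hf hR k h0 (A := 0) (fun z h => by rw [hz z h, abs_zero]) him hw
  rw [hz v hv1, abs_zero] at hv2
  exact him (abs_eq_zero.1 (le_antisymm hv2 (abs_nonneg _)))

end Pool.Agent.P8H15.JA
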