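import Pool.Agent.P8H15.JA.Bad
import Pool.Agent.Y22.RX4
import Pool.Agent.Y771.NF.Dn
import Pool.Agent.Y771.NF.FinD
import Pool.Agent.Results.MP_cd509c_nt.HighDerivativeZeros

/-!
# The Ramanujan Xi function has the properties collected in `Dat`
-/

set_option autoImplicit false

namespace Pool.Agent.P8H15.JA

open Complex Filter Topology MeasureTheory Set
open Pool.Agent.H128R3.GJB (X1)
open Pool.Agent.Y771.NF
open Pool.Agent.Y22.RX (Ev)
open scoped ComplexConjugate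

theorem ncard_le {g : ℂ → ℂ} (hg : Differentiable ℂ g) (hne : ∃ b, g b ≠ 0) {A : Set ℂ} (hA : A.Finite)
    (h0 : ∀ z ∈ A, g z = 0) : (A.ncard : ℝ) ≤ Cnt.num g A := by
  rw [Cnt.num_eq hA, Set.ncard_eq_toFinset_card _ hA, Finset.card_eq_sum_ones]
  push_cast
  refine Finset.sum_le_sum fun z hz => ?_
  rw [Set.Finite.mem_toFinset] at hz
  have hgtop : analyticOrderAt g z ≠ ⊤ := by
    intro hz
    rw [analyticOrderAt_eq_top] at hz
    have h3 : AnalyticOnNhd ℂ g Set.univ := fun z _ => hg.analyticAt z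
    have h4 := h3.eqOn_zero_of_preconnected_of_eventuallyEq_zero isPreconnected_univ (Set.mem_univ z) hz
    obtain ⟨b, hb⟩ := hne
    exact hb (h4 (Set.mem_univ b))
  have h5 : 1 ≤ analyticOrderNatAt g z := by
    by_contra hlt
    push Not at hlt
    have h6 : analyticOrderNatAt g z = 0 := by omega
    have h7 : analyticOrderAt g z = 0 := by
      rw [← Nat.cast_analyticOrderNatAt hgtop, h6]
      rfl
    exact ((hg.analyticAt z).analyticOrderAt_eq_zero.mp h7) (h0 z hz)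
  exact_mod_cast h5

/-- the Ramanujan Xi function -/
theorem dat_delta {G : ℂ → ℂ}
    (hG : ∀ z, G z = mellin (fun y : ℝ => ((Pool.Agent.H128R3.JD.DelK.Dl y : ℝ) : ℂ)) (6 + I * z)) : Dat G := by
  obtain ⟨B, F, K, hB, hE⟩ := Pool.Agent.Y22.RX.ev_delta
  have hGf : ∀ z, G z = X1 (Pool.Agent.H128R3.JD.DelHk.hk B) (I * z) := by
    intro z
    rw [hG]
    show _ = mellin (fun y : ℝ => ((Pool.Agent.H128R3.JD.DelK.Dl y : ℝ) : ℂ)) ((((12 : ℝ) / 2 : ℝ) : ℂ) + I * z)
    have h6 : (((12 : ℝ) / 2 : ℝ) : ℂ) = 6 := by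
      push_cast
      norm_num
    rw [h6]
  have hGL : ∀ z, G z = Lam (N := 1) (k := 12) Pool.Agent.W97.TW.deltaForm (((12 : ℕ) : ℂ) / 2 + I * z) := by
    intro z
    rw [Lam_delta]
    have h : (((12 : ℕ) : ℂ)) / 2 = 6 := by norm_num
    rw [h]
    exact hG z
  have hdiff : Differentiable ℂ G := by
    have : G = fun z => X1 (Pool.Agent.H128R3.JD.DelHk.hk B) (I * z) := funext hGf
    rw [this]
    exact hE.fdiff.comp (by fun_prop)
  have heven : ∀ z, G (-z) = G z := by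
    intro z
    rw [hGf, hGf, mul_neg, hE.even]
  obtain ⟨u, H, Z, hu, hGG, hst, -, -, -⟩ := all_of (N := 1) (k := 12) (by norm_num) newf_delta
  have hGX : ∀ z, G z = u⁻¹ * Xf Pool.Agent.W97.TW.deltaForm u (I * z) := by
    intro z
    rw [hGL, Xf, inv_mul_cancel_left₀ hu]
  obtain ⟨hfin, c, C, hc, hC, -, hd⟩ := derivs (N := 1) (k := 12) (by norm_num) newf_delta G hGL
  have hne : ∀ k, ∃ b, iteratedDeriv k G b ≠ 0 := by
    intro k
    by_contra hcon
    push Not at hcon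
    have h1 := hfin k 1
    have h2 : range (fun y : ℝ => (1 + y * I : ℂ)) ⊆ Cnt.ZerD G k 1 := by
      rintro z ⟨y, rfl⟩
      refine ⟨hcon _, ?_, ?_⟩
      · simp
      · simp
    refine (Set.infinite_range_of_injective ?_) (h1.subset h2)
    intro a b hab
    have h3 := congrArg Complex.im hab
    simpa using h3
  refine ⟨hdiff, ?_, heven, ?_, ?_, ?_, ?_, hfin, ?_, ?_⟩
  · intro z
    rw [hGf, hGf]
    have e : I * conj z = -(conj (I * z)) := by
      rw [map_mul, Complex.conj_I]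
      ring
    rw [e, hE.even, hE.fconj]
  · refine ⟨max K 0, le_max_right _ _, fun w => ?_⟩
    rw [hGf, ← hE.sq]
    refine (hE.grow _).trans (Real.exp_le_exp.2 ?_)
    have h1 : ‖(I * w) ^ 2‖ = ‖w‖ ^ 2 := by
      rw [norm_pow, norm_mul, Complex.norm_I, one_mul]
    rw [h1]
    have h2 : (1 + ‖w‖ ^ 2) ^ (3 / 4 : ℝ) ≤ (1 + ‖w‖) ^ (3 / 2 : ℝ) := by
      have h3 : (1 + ‖w‖) ^ (3 / 2 : ℝ) = ((1 + ‖w‖) ^ 2) ^ (3 / 4 : ℝ) := by
        rw [← Real.rpow_natCast, ← Real.rpow_mul (by positivity)]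
        norm_num
      rw [h3]
      apply Real.rpow_le_rpow (by positivity) _ (by norm_num)
      nlinarith [norm_nonneg w]
    calc K * (1 + ‖w‖ ^ 2) ^ (3 / 4 : ℝ) ≤ max K 0 * (1 + ‖w‖ ^ 2) ^ (3 / 4 : ℝ) :=
          mul_le_mul_of_nonneg_right (le_max_left _ _) (by positivity)
      _ ≤ max K 0 * (1 + ‖w‖) ^ (3 / 2 : ℝ) := mul_le_mul_of_nonneg_left h2 (le_max_right _ _)
  · intro z hz
    rw [hGX] at hz
    have h1 := hst _ ((mul_eq_zero.1 hz).resolve_left (inv_ne_zero hu))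
    rwa [Cnt.rot_re, abs_neg] at h1
  · intro z hz hre
    have h1 : I * z = ((-z.im : ℝ) : ℂ) := by
      apply Complex.ext
      · simp
      · simp [hre]
    rw [hGf, h1] at hz
    exact Pool.Agent.Y22.RX.real_ne hB rfl (fun y hy => Pool.Agent.H128R3.JD.DelK.Dl_pos hy) _ hz
  · obtain ⟨C, hC, h⟩ := off (N := 1) (k := 12) (by norm_num) newf_delta G hGL (c := 1 / 2) (by norm_num)
    refine ⟨1 / 2, C, by norm_num, hC, fun δ T hδ hT => ?_⟩
    obtain ⟨h1, h2⟩ := h δ T hδ hT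
    refine ⟨h1, (ncard_le hdiff (by simpa using hne 0) h1 fun z hz => hz.1).trans h2⟩
  · refine ⟨c, C, hc, hC, fun k T hT => ?_⟩
    have hE1 : (Cnt.ExcD G k T).Finite := (hfin k T).subset fun z hz => hz.1
    have hsub : {z | iteratedDeriv k G z = 0 ∧ z.im ≠ 0 ∧ 0 < z.re ∧ z.re ≤ T} ⊆ Cnt.ExcD G k T :=
      fun z hz => ⟨⟨hz.1, hz.2.2.1, hz.2.2.2⟩, Or.inl hz.2.1⟩
    have hsm : ContDiff ℂ ((k + 1 : ℕ) : ℕ∞) G := hdiff.contDiff
    have hdk : Differentiable ℂ (iteratedDeriv k G) :=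
      hsm.differentiable_iteratedDeriv k (by exact_mod_cast Nat.lt_succ_self k)
    refine le_trans ?_ (hd k T hT)
    refine le_trans ?_ (ncard_le hdk (hne k) hE1 fun z hz => hz.1.1)
    exact_mod_cast Set.ncard_le_ncard hsub hE1
  · obtain ⟨c, hc, n0, h⟩ := Pool.Agent.Results.MP_cd509c_nt.HighDerivativeZeros.result
    have hX : G = Pool.Agent.Results.MP_cd509c_nt.HighDerivativeZeros.Xi := funext fun z => hG z
    rw [← hX] at h
    exact ⟨c, hc, n0, fun n hn z hz hz2 => (h n hn z hz hz2).1⟩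

end Pool.Agent.P8H15.JA
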