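import Pool.Agent.P8H15.JA.Bad
import Pool.Agent.H24R2.JP.Newton

/-!
# The final theorems on the Jensen polynomials at real points
-/

set_option autoImplicit false

namespace Pool.Agent.P8H15.JA

open Complex Filter Topology Polynomial MeasureTheory Set
open scoped ComplexConjugate

variable {f : ℂ → ℂ}

/-- zero, or only real zeros -/
def Hy (f : ℂ → ℂ) (d k : ℕ) (t : ℝ) : Prop :=
  (∃ z, JJ f d k t z ≠ 0) → ∀ z, JJ f d k t z = 0 → z.im = 0

theorem iter_diff (hf : Differentiable ℂ f) (k : ℕ) : Differentiable ℂ (iteratedDeriv k f) := by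
  have hsm : ContDiff ℂ ((k + 1 : ℕ) : ℕ∞) f := hf.contDiff
  exact hsm.differentiable_iteratedDeriv k (by exact_mod_cast Nat.lt_succ_self k)

/-- Hyperbolicity is a closed condition. -/
theorem hy_closed (hf : Differentiable ℂ f) {d k : ℕ} {t0 : ℝ}
    (h : ∀ᶠ t : ℝ in 𝓝[≠] t0, ∀ z, JJ f d k t z = 0 → z.im = 0) : Hy f d k t0 := by
  rintro ⟨z1, hz1⟩ z hz
  by_contra him
  have hcont : Continuous (fun p : ℝ × ℂ => JJ f d k p.1 p.2) := by
    unfold JJ
    refine continuous_finsetSum _ fun j _ => ?_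
    have h1 := (iter_diff hf (k + j)).continuous
    fun_prop
  obtain ⟨G, hG⟩ : ∃ G : C(ℝ × ℂ, ℂ), G = ⟨_, hcont⟩ := ⟨_, rfl⟩
  obtain ⟨u, hu⟩ : ∃ u : ℕ → ℝ, u = fun N : ℕ => t0 + 1 / ((N : ℝ) + 1) := ⟨_, rfl⟩
  have hu0 : Tendsto u atTop (𝓝 t0) := by
    rw [hu]
    have h2 := (tendsto_const_nhds (x := t0)).add (tendsto_one_div_add_atTop_nhds_zero_nat (𝕜 := ℝ))
    simpa using h2
  have hu1 : Tendsto u atTop (𝓝[≠] t0) := by
    rw [tendsto_nhdsWithin_iff]
    refine ⟨hu0, Eventually.of_forall fun N => ?_⟩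
    rw [hu]
    show t0 + 1 / ((N : ℝ) + 1) ≠ t0
    have : (0 : ℝ) < 1 / ((N : ℝ) + 1) := by positivity
    linarith
  have h3 : Tendsto (fun N => G.curry (u N)) atTop (𝓝 (G.curry t0)) :=
    (G.curry.continuous.tendsto t0).comp hu0
  rw [ContinuousMap.tendsto_iff_tendstoLocallyUniformly] at h3
  have h4 : TendstoLocallyUniformly (fun N z => JJ f d k (u N) z) (JJ f d k t0) atTop := by
    rw [hG] at h3
    exact h3
  have hd : ∀ t : ℝ, Differentiable ℂ (JJ f d k t) := by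
    intro t
    unfold JJ
    fun_prop
  have h5 := Pool.Agent.H24R2.JP.NewtonAux.hurwitz _ _ (fun N => hd (u N)) h4 (hd t0) z1 hz1 z hz (|z.im| / 2)
    (by positivity)
  obtain ⟨N, hN1, w, hw1, hw2⟩ := ((hu1.eventually h).and h5).exists
  have h6 := hN1 w hw2
  have h7 := (Complex.abs_im_le_norm (w - z)).trans hw1
  rw [Complex.sub_im, h6, zero_sub, abs_neg] at h7
  have h8 : 0 < |z.im| := abs_pos.2 him
  linarith

/-- **The criterion.** -/
theorem crit (h : Dat f) : (∀ z, f z = 0 → z.im = 0) ↔ ∀ (d k : ℕ) (t : ℝ), Hy f d k t := by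
  obtain ⟨R, hR⟩ := exists_R h
  constructor
  · intro hz d k t
    refine hy_closed h.diff ?_
    filter_upwards [real_ev (iter_diff h.diff k) (iter_ne h k) t] with s hs z hJ
    exact crit_fwd h.diff hR hz d k s hs z hJ
  · intro hJ z hz
    refine crit_rev h.diff (by simpa using iter_ne h 0) (fun x => h.real x) (fun d t ht w hw => ?_) z hz
    refine hJ d 0 t ⟨0, ?_⟩ w hw
    have : JJ f d 0 t 0 = f t := by
      unfold JJ
      rw [Finset.sum_eq_single 0]
      · simp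
      · intro j _ hj
        rw [zero_pow hj, mul_zero]
      · intro hc
        exact absurd (Finset.mem_range.2 (Nat.succ_pos d)) hc
    rw [this]
    exact ht

/-- **All shifts which are large in terms of the degree and the height.** -/
theorem det (h : Dat f) : ∃ K : ℝ, 0 < K ∧ ∀ (d k : ℕ) (t : ℝ), K * Real.log (2 + d + |t|) ≤ k →
    Hy f d k t := by
  obtain ⟨c4, hc4, n0, hhigh⟩ := h.high
  obtain ⟨R, hR⟩ := exists_R h
  obtain ⟨c, hcd⟩ : ∃ c : ℝ, c = c4 / 2 := ⟨_, rfl⟩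
  have hc : 0 < c := by rw [hcd]; positivity
  refine ⟨1 / c + 2 * n0, by positivity, fun d k t hk => ?_⟩
  have hl : 1 / 2 ≤ Real.log (2 + d + |t|) := by
    have h2 : Real.log 2 ≤ Real.log (2 + d + |t|) :=
      Real.log_le_log (by norm_num) (by linarith [abs_nonneg t, (Nat.cast_nonneg d : (0 : ℝ) ≤ d)])
    have h3 := Real.log_two_gt_d9
    linarith
  have hk0 : n0 ≤ k := by
    have h4 : (n0 : ℝ) ≤ k := by
      have h5 : (0 : ℝ) ≤ n0 := Nat.cast_nonneg _
      have h6 : 0 ≤ 1 / c * Real.log (2 + d + |t|) := by positivity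
      nlinarith
    exact_mod_cast h4
  have hE : 2 + (d : ℝ) + |t| ≤ Real.exp (c * k) := by
    rw [← Real.log_le_iff_le_exp (by positivity)]
    have h5 : (0 : ℝ) ≤ 2 * n0 * Real.log (2 + d + |t|) := by positivity
    have h6 : 1 / c * Real.log (2 + d + |t|) ≤ k := by linarith
    rw [one_div, inv_mul_le_iff₀ hc] at h6
    exact h6
  refine hy_closed h.diff ?_
  have hnear : ∀ᶠ s : ℝ in 𝓝[≠] t, |s| < |t| + 1 := by
    refine nhdsWithin_le_nhds ?_
    exact (continuous_abs.tendsto t).eventually_lt_const (by linarith)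
  filter_upwards [real_ev (iter_diff h.diff k) (iter_ne h k) t, hnear] with s hs hst z hJ
  refine jensen_real hR (by norm_num : (0 : ℝ) ≤ 1 / 2) h.strip d k s hs (fun w h1 h2 => ?_) z hJ
  by_contra hcon
  push Not at hcon
  refine h2 (hhigh k hk0 w h1 ?_)
  obtain ⟨b, hb⟩ := iter_ne h k
  obtain ⟨v, hv1, hv2, -⟩ := circ h.diff hR k hb h.strip h2 h1
  have him : |w.im| ≤ 1 / 2 := hv2.trans (h.strip v hv1)
  have h3 : ‖w - s‖ ^ 2 ≤ (Real.exp (c * k) - 2) * (1 / 4) := by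
    refine hcon.trans ?_
    have h4 : w.im ^ 2 ≤ 1 / 4 := by
      rw [← sq_abs]
      nlinarith [abs_nonneg w.im]
    have h5 : (d : ℝ) ≤ Real.exp (c * k) - 2 := by linarith [abs_nonneg t]
    have h6 : (0 : ℝ) ≤ d := Nat.cast_nonneg d
    gcongr
    linarith
  have h7 : |w.re - s| ≤ ‖w - s‖ := by
    have := Complex.abs_re_le_norm (w - s)
    simpa using this
  obtain ⟨x, hx⟩ : ∃ x : ℝ, x = Real.exp (c * k) := ⟨_, rfl⟩
  have hx2 : Real.exp (c4 * k) = x ^ 2 := by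
    rw [hx, ← Real.exp_nat_mul]
    congr 1
    rw [hcd]
    push_cast
    ring
  rw [← hx] at hE h3
  have hx2' : 2 ≤ x := by linarith [abs_nonneg t, (Nat.cast_nonneg d : (0 : ℝ) ≤ d)]
  have h8 : ‖w - s‖ ≤ x := by
    refine abs_le_of_sq_le_sq' ?_ (by linarith) |>.2
    nlinarith
  rw [hx2]
  have h9 : |w.re| ≤ |s| + |w.re - s| := by
    have : w.re = s + (w.re - s) := by ring
    calc |w.re| = |s + (w.re - s)| := by rw [← this]
      _ ≤ _ := abs_add_le _ _
  have h10 : |s| ≤ x := by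
    have : (0 : ℝ) ≤ d := Nat.cast_nonneg d
    linarith
  nlinarith

/-- **All shifts at almost all heights.** -/
theorem almost (h : Dat f) : ∃ c C : ℝ, 0 < c ∧ 0 < C ∧ ∀ (n : ℕ) (T : ℝ), 0 ≤ T →
    volume {t : ℝ | 0 ≤ t ∧ t ≤ T ∧ ∃ d k : ℕ, n ≤ k ∧ (d : ℝ) ≤ Real.exp (c * k) ∧ ¬ Hy f d k t} ≤
      ENNReal.ofReal (C * T * Real.exp (-(c * n))) := by
  obtain ⟨c, C, hc, hC, h'⟩ := all h
  refine ⟨c, C, hc, hC, fun n T hT => le_trans (measure_mono ?_) (h' n T hT)⟩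
  rintro t ⟨h1, h2, d, k, h3, h4, h5⟩
  refine ⟨h1, h2, k, h3, d, h4, ?_⟩
  unfold Hy at h5
  push Not at h5
  obtain ⟨-, z, h6, h7⟩ := h5
  exact ⟨z, h6, h7⟩

end Pool.Agent.P8H15.JA
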