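import Pool.Agent.P8H15.JA.Circ
import Pool.Agent.H24R2.JP.Chasse
import Pool.Agent.H24R2.JP.Sector
import Pool.Agent.H24R2.JP.Limit
import Pool.Agent.H24R2.JP.JensenS

/-!
# Hyperbolicity of the Jensen polynomials at a real point
-/

set_option autoImplicit false

namespace Pool.Agent.P8H15.JA

open Complex Filter Topology Polynomial
open scoped ComplexConjugate
open Pool.Agent.H24R2.JP (SJen SSector SLimit sector chasse limit)

/-- the values of the Jensen polynomial of degree `d` and shift `k` at the point `t` -/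
noncomputable def JJ (f : ℂ → ℂ) (d k : ℕ) (t : ℝ) (z : ℂ) : ℂ :=
  ∑ j ∈ Finset.range (d + 1), (d.choose j : ℂ) * iteratedDeriv (k + j) f t * z ^ j

/-- the Taylor coefficients of the approximants -/
theorem coef_lim {g : ℂ → ℂ} {Q : ℕ → ℝ[X]}
    (h : TendstoLocallyUniformly (fun (N : ℕ) (x : ℂ) => aeval x (Q N)) g atTop) (n j : ℕ) :
    Tendsto (fun N : ℕ => (j.factorial : ℂ) * (((derivative^[n] (Q N)).coeff j : ℝ) : ℂ)) atTop
      (𝓝 (iteratedDeriv (n + j) g 0)) := by
  have h1 := (tendstoLocallyUniformlyOn_univ.2 (Pool.Agent.H24R2.JP.Der.der1 g Q h (n + j))).tendsto_at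
    (Set.mem_univ (0 : ℂ))
  have h2 : (fun N : ℕ => (j.factorial : ℂ) * (((derivative^[n] (Q N)).coeff j : ℝ) : ℂ)) =
      fun N : ℕ => aeval (0 : ℂ) (derivative^[n + j] (Q N)) := by
    funext N
    have h3 : ∀ Q : ℝ[X], (j.factorial : ℂ) * ((Q.coeff j : ℝ) : ℂ) =
        aeval (0 : ℂ) (derivative^[j] Q) := by
      intro Q
      rw [← Polynomial.coeff_zero_eq_aeval_zero', Polynomial.coeff_iterate_derivative]
      simp [Nat.descFactorial_self]
    rw [h3, Nat.add_comm n j, Function.iterate_add_apply]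
  rw [h2]
  exact h1

/-- **Hyperbolicity from the zeros of the derivative.** -/
theorem jensen_real {f : ℂ → ℂ} {R : ℕ → ℝ[X]} (hR : Ap f R) {A : ℝ}
    (hA0 : 0 ≤ A) (hA : ∀ z, f z = 0 → |z.im| ≤ A) (d k : ℕ) (t : ℝ)
    (h0 : iteratedDeriv k f t ≠ 0)
    (hz : ∀ w : ℂ, iteratedDeriv k f w = 0 → w.im ≠ 0 → (d : ℝ) * w.im ^ 2 < ‖w - t‖ ^ 2) (z : ℂ)
    (hJ : JJ f d k t z = 0) : z.im = 0 := by
  obtain ⟨g, hg⟩ : ∃ g : ℂ → ℂ, g = fun x => f (x + t) := ⟨_, rfl⟩
  obtain ⟨Q, hQ⟩ : ∃ Q : ℕ → ℝ[X], Q = fun N => (R N).comp (X + C t) := ⟨_, rfl⟩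
  have hval : ∀ (N : ℕ) (x : ℂ), aeval x (Q N) = aeval (x + t) (R N) := by
    intro N x
    rw [hQ]
    simp [aeval_comp]
  have hlim : TendstoLocallyUniformly (fun (N : ℕ) (x : ℂ) => aeval x (Q N)) g atTop := by
    have h1 := hR.2.comp (fun z : ℂ => z + t) (by fun_prop)
    have h2 : (f ∘ fun z : ℂ => z + t) = g := by
      rw [hg]
      rfl
    rw [h2] at h1
    refine h1.congr fun N z => ?_
    exact (hval N z).symm
  have hit : ∀ (n : ℕ) (x : ℂ), iteratedDeriv n g x = iteratedDeriv n f (x + t) := by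
    intro n x
    rw [hg]
    have h := iteratedDeriv_comp_add_const n f (t : ℂ)
    exact congrFun h x
  have hloc := Pool.Agent.H24R2.JP.Der.der1 g Q hlim k
  have hcoef := coef_lim hlim k
  have hg0 : iteratedDeriv k g 0 ≠ 0 := by
    rw [hit, zero_add]
    exact h0
  obtain ⟨R0, hR0⟩ : ∃ R0 : ℝ, R0 = d * A + 1 := ⟨_, rfl⟩
  have hd0 : (0 : ℝ) ≤ d := Nat.cast_nonneg d
  have hK : ∀ a ∈ Pool.Agent.H24R2.JP.Jenh.Kc d R0, iteratedDeriv k g a ≠ 0 := by
    intro a ha ha0
    have ha2 := ha.2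
    have haim : a.im = 0 := by
      by_contra hne
      rw [hit] at ha0
      have h1 := hz (a + t) ha0 (by simpa using hne)
      have h2 : (a + t : ℂ).im = a.im := by simp
      rw [h2, add_sub_cancel_right] at h1
      linarith
    rw [haim] at ha2
    have h5 : ‖a‖ ^ 2 = 0 := le_antisymm (by simpa using ha2) (sq_nonneg _)
    have h6 : a = 0 := by
      rw [← norm_eq_zero]
      exact pow_eq_zero_iff (two_ne_zero) |>.1 h5
    rw [h6] at ha0
    exact hg0 ha0
  have hcont : ∀ N, Continuous fun x : ℂ => aeval x (derivative^[k] (Q N)) := fun N =>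
    (derivative^[k] (Q N)).continuous_aeval
  have e1 := Pool.Agent.H24R2.JP.Jenh.event_ne _ _ hcont hloc _
    (Pool.Agent.H24R2.JP.Jenh.Kc_compact d R0) hK
  have e2 : ∀ᶠ N in atTop, (((0 : ℕ).factorial : ℂ) *
      (((derivative^[k] (Q N)).coeff 0 : ℝ) : ℂ)) ≠ 0 :=
    (hcoef 0).eventually_ne (by simpa using hg0)
  have hmain := limit d (fun N j => (j.factorial : ℂ) * (((derivative^[k] (Q N)).coeff j : ℝ) : ℂ))
    (fun j => iteratedDeriv (k + j) g 0) (by simpa using hg0) (fun j _ => hcoef j) (by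
      filter_upwards [e1, e2] with N hN1 hN2
      have hc0 : (derivative^[k] (Q N)).coeff 0 ≠ 0 := by
        intro h
        rw [h] at hN2
        simp at hN2
      have hne : derivative^[k] (Q N) ≠ 0 := by
        intro h
        rw [h] at hc0
        simp at hc0
      refine sector chasse _ d hc0 ?_
      intro a ha
      by_cases hmem : a ∈ Pool.Agent.H24R2.JP.Jenh.Kc d R0
      · exact absurd ha (hN1 a hmem)
      by_cases hR' : ‖a‖ ≤ R0
      · by_contra hlt
        exact hmem ⟨hR', (not_le.1 hlt).le⟩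
      · by_cases haim : a.im = 0
        · rw [haim]
          simp
        obtain ⟨b, hb1, hb2, hb3, -⟩ := circ_poly (Q N) k a hne haim ha
        rw [hval] at hb2
        have hb4 := (hR.1 N _ hb2).resolve_right (by simpa using hb1)
        have hb5 := hA _ hb4
        have h2 : (b + t : ℂ).im = b.im := by simp
        rw [h2] at hb5
        have h6 : a.im ^ 2 ≤ A ^ 2 := by
          rw [← sq_abs a.im]
          exact pow_le_pow_left₀ (abs_nonneg _) (hb3.trans hb5) 2
        have h7 : R0 ^ 2 ≤ ‖a‖ ^ 2 := by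
          have : 0 ≤ R0 := by rw [hR0]; positivity
          exact pow_le_pow_left₀ this (not_le.1 hR').le 2
        have h8 : (d : ℝ) * A ^ 2 ≤ R0 ^ 2 := by
          rw [hR0]
          rcases Nat.eq_zero_or_pos d with h | h
          · rw [h]
            simp
          · have h9 : (1 : ℝ) ≤ d := by exact_mod_cast h
            nlinarith [mul_nonneg hd0 hA0, mul_nonneg (mul_nonneg hd0 (sub_nonneg.2 h9)) (sq_nonneg A)]
        calc (d : ℝ) * a.im ^ 2 ≤ d * A ^ 2 := mul_le_mul_of_nonneg_left h6 hd0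
          _ ≤ ‖a‖ ^ 2 := h8.trans h7)
  refine hmain z ?_
  have e3 : ∀ j, iteratedDeriv (k + j) g 0 = iteratedDeriv (k + j) f t := fun j => by
    rw [hit, zero_add]
  simp only [e3]
  exact hJ

end Pool.Agent.P8H15.JA
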